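import Pool.Agent.Helper69.BQ.Defs

/-!
# Project BQ, piece B12: existence of the biquadratic field with its automorphisms
-/

namespace Pool.Agent.Helper85.BQ

open Module NumberField Pool.Agent.Helper69.BQ Polynomial

lemma not_isSquare_of {d : ℤ} (hd : Squarefree d) {q : ℕ} (hq : q.Prime) (h : (q : ℤ) ∣ d) :
    ¬ IsSquare (d : ℚ) := by
  rw [Rat.isSquare_intCast_iff]
  rintro ⟨r, hr⟩
  have hu : IsUnit r := hd r (by rw [hr])
  have h2 : IsUnit d := by rw [hr]; exact hu.mul hu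
  have h1 : IsUnit (q : ℤ) := isUnit_of_dvd_unit h h2
  exact (Nat.prime_iff_prime_int.mp hq).not_isUnit h1

/-- The polynomial `(X² - a)(X² - b)`. -/
noncomputable def pol (a b : ℚ) : ℚ[X] := (X ^ 2 - C a) * (X ^ 2 - C b)

lemma pol_ne_zero (a b : ℚ) : pol a b ≠ 0 :=
  mul_ne_zero (X_pow_sub_C_ne_zero (by norm_num) a) (X_pow_sub_C_ne_zero (by norm_num) b)

/-- The field `ℚ(√a, √b)` inside `ℝ`. -/
noncomputable def LL (a b : ℚ) : IntermediateField ℚ ℝ :=
  IntermediateField.adjoin ℚ ((pol a b).rootSet ℝ)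

lemma sq_sub_splits {a : ℚ} (ha : 0 ≤ a) :
    ((X ^ 2 - C a : ℚ[X]).map (algebraMap ℚ ℝ)).Splits := by
  have h : (X ^ 2 - C a : ℚ[X]).map (algebraMap ℚ ℝ) =
      (X - C (Real.sqrt a)) * (X - C (-Real.sqrt a)) := by
    have h1 : (C (Real.sqrt a) : ℝ[X]) * C (Real.sqrt a) = C (a : ℝ) := by
      rw [← C_mul, Real.mul_self_sqrt (by exact_mod_cast ha)]
    have h2 : (X ^ 2 - C a : ℚ[X]).map (algebraMap ℚ ℝ) = X ^ 2 - C (a : ℝ) := by
      simp
    rw [h2, ← h1, C_neg]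
    ring
  rw [h]
  exact Splits.mul (Splits.X_sub_C _) (Splits.X_sub_C _)

lemma pol_splits {a b : ℚ} (ha : 0 ≤ a) (hb : 0 ≤ b) :
    ((pol a b).map (algebraMap ℚ ℝ)).Splits := by
  rw [pol, Polynomial.map_mul]
  exact (sq_sub_splits ha).mul (sq_sub_splits hb)

lemma isSplittingField {a b : ℚ} (ha : 0 ≤ a) (hb : 0 ≤ b) :
    IsSplittingField ℚ (LL a b) (pol a b) :=
  IntermediateField.adjoin_rootSet_isSplittingField (pol_splits ha hb)

lemma mem_rootSet_pol {a b : ℚ} {x : ℝ} :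
    x ∈ (pol a b).rootSet ℝ ↔ x ^ 2 = a ∨ x ^ 2 = b := by
  rw [mem_rootSet, and_iff_right (pol_ne_zero a b)]
  simp [pol, sub_eq_zero]

/-- `√a` as an element of the field. -/
noncomputable def ra {a : ℚ} (ha : 0 ≤ a) (b : ℚ) : LL a b :=
  ⟨Real.sqrt a, IntermediateField.subset_adjoin ℚ _
    (mem_rootSet_pol.2 (Or.inl (Real.sq_sqrt (by exact_mod_cast ha))))⟩

/-- `√b` as an element of the field. -/
noncomputable def rb (a : ℚ) {b : ℚ} (hb : 0 ≤ b) : LL a b :=
  ⟨Real.sqrt b, IntermediateField.subset_adjoin ℚ _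
    (mem_rootSet_pol.2 (Or.inr (Real.sq_sqrt (by exact_mod_cast hb))))⟩

lemma ra_sq {a : ℚ} (ha : 0 ≤ a) (b : ℚ) : ra ha b ^ 2 = (a : LL a b) := by
  apply Subtype.ext
  change (Real.sqrt a) ^ 2 = ((a : LL a b) : ℝ)
  rw [Real.sq_sqrt (by exact_mod_cast ha)]
  simp

lemma rb_sq (a : ℚ) {b : ℚ} (hb : 0 ≤ b) : rb a hb ^ 2 = (b : LL a b) := by
  apply Subtype.ext
  change (Real.sqrt b) ^ 2 = ((b : LL a b) : ℝ)
  rw [Real.sq_sqrt (by exact_mod_cast hb)]
  simp

/-- Automorphisms are determined by their values at the two square roots. -/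
lemma aut_ext {a b : ℚ} (ha : 0 ≤ a) (hb : 0 ≤ b) {g h : LL a b ≃ₐ[ℚ] LL a b}
    (h1 : g (ra ha b) = h (ra ha b)) (h2 : g (rb a hb) = h (rb a hb)) : g = h := by
  have key : (g : LL a b →ₐ[ℚ] LL a b) = (h : LL a b →ₐ[ℚ] LL a b) := by
    refine IntermediateField.algHom_ext_of_eq_adjoin (F := ℚ) (E := ℝ) (S := LL a b)
      (s := (pol a b).rootSet ℝ) rfl ?_
    intro x hx
    have hx' := mem_rootSet_pol.1 hx
    have aux : ∀ y : LL a b, (x : ℝ) ^ 2 = (y : ℝ) ^ 2 → g y = h y →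
        ∀ hm : x ∈ LL a b, g ⟨x, hm⟩ = h ⟨x, hm⟩ := by
      intro y hy hg hm
      rcases sq_eq_sq_iff_eq_or_eq_neg.1 hy with h3 | h3
      · have : (⟨x, hm⟩ : LL a b) = y := Subtype.ext h3
        rw [this, hg]
      · have : (⟨x, hm⟩ : LL a b) = -y := Subtype.ext h3
        rw [this, map_neg, map_neg, hg]
    rcases hx' with h3 | h3
    · exact aux (ra ha b) (by
        rw [h3]; exact (Real.sq_sqrt (by exact_mod_cast ha)).symm) h1 _
    · exact aux (rb a hb) (by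
        rw [h3]; exact (Real.sq_sqrt (by exact_mod_cast hb)).symm) h2 _
  ext x
  exact congrArg Subtype.val (DFunLike.congr_fun key x)

lemma aut_sign {K : Type} [Field K] [Algebra ℚ K] (g : K ≃ₐ[ℚ] K) {s : K} {a : ℚ}
    (hs : s ^ 2 = (a : K)) : g s = s ∨ g s = -s := by
  apply sq_eq_sq_iff_eq_or_eq_neg.1
  rw [← map_pow, hs]
  simp

/-- A square root of a nonsquare rational number is moved by some automorphism. -/
lemma exists_move {K : Type} [Field K] [Algebra ℚ K] [FiniteDimensional ℚ K] [IsGalois ℚ K]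
    {s : K} {a : ℚ} (hs : s ^ 2 = (a : K)) (ha : ¬ IsSquare a) :
    ∃ g : K ≃ₐ[ℚ] K, g s = -s := by
  by_contra hcon
  push Not at hcon
  have hfix : ∀ g : K ≃ₐ[ℚ] K, g s = s := fun g => (aut_sign g hs).resolve_right (hcon g)
  obtain ⟨q, hq⟩ := (IsGalois.mem_range_algebraMap_iff_fixed s).2 hfix
  apply ha
  refine ⟨q, ?_⟩
  have : (algebraMap ℚ K) (q ^ 2) = algebraMap ℚ K a := by
    rw [map_pow, hq, hs]; simp
  have := (algebraMap ℚ K).injective this
  rw [← this, sq]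

/-- All three nontrivial sign patterns occur. -/
lemma exists_auts {K : Type} [Field K] [Algebra ℚ K] [FiniteDimensional ℚ K] [IsGalois ℚ K]
    {s t : K} {a b : ℚ} (hs : s ^ 2 = (a : K)) (ht : t ^ 2 = (b : K))
    (ha : ¬ IsSquare a) (hb : ¬ IsSquare b) (hab : ¬ IsSquare (a * b)) :
    ∃ σ τ : K ≃ₐ[ℚ] K, σ s = s ∧ σ t = -t ∧ τ s = -s ∧ τ t = t := by
  have : CharZero K := algebraRat.charZero K
  have hst : (s * t) ^ 2 = ((a * b : ℚ) : K) := by rw [mul_pow, hs, ht]; push_cast; ring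
  obtain ⟨g1, h1⟩ := exists_move hs ha
  obtain ⟨g2, h2⟩ := exists_move ht hb
  obtain ⟨g3, h3⟩ := exists_move hst hab
  have hs0 : s ≠ 0 := by
    rintro rfl
    apply ha
    have h0 : (algebraMap ℚ K) a = 0 := by simpa using hs.symm
    have h00 : a = 0 := by
      apply (algebraMap ℚ K).injective
      rw [h0, map_zero]
    exact ⟨0, by rw [h00]; ring⟩
  have ht0 : t ≠ 0 := by
    rintro rfl
    apply hb
    have h0 : (algebraMap ℚ K) b = 0 := by simpa using ht.symm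
    have h00 : b = 0 := by
      apply (algebraMap ℚ K).injective
      rw [h0, map_zero]
    exact ⟨0, by rw [h00]; ring⟩
  have hst0 : s * t ≠ 0 := mul_ne_zero hs0 ht0
  have hne : s * t ≠ -(s * t) := by
    intro h
    apply hst0
    have : (2 : K) * (s * t) = 0 := by linear_combination h
    exact (mul_eq_zero.1 this).resolve_left (by norm_num)
  rcases aut_sign g3 hs with a3 | a3
  · -- `g3 = (+, -)`
    have b3 : g3 t = -t := by
      rcases aut_sign g3 ht with b3 | b3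
      · exfalso; rw [map_mul, a3, b3] at h3; exact hne h3
      · exact b3
    rcases aut_sign g1 ht with b1 | b1
    · exact ⟨g3, g1, a3, b3, h1, b1⟩
    · exact ⟨g3, g1 * g3, a3, b3, by rw [AlgEquiv.mul_apply, a3, h1],
        by rw [AlgEquiv.mul_apply, b3, map_neg, b1, neg_neg]⟩
  · have b3 : g3 t = t := by
      rcases aut_sign g3 ht with b3 | b3
      · exact b3
      · exfalso
        rw [map_mul, a3, b3, neg_mul_neg] at h3; exact hne h3
    rcases aut_sign g2 hs with b1 | b1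
    · exact ⟨g2, g3, b1, h2, a3, b3⟩
    · exact ⟨g2 * g3, g3, by rw [AlgEquiv.mul_apply, a3, map_neg, b1, neg_neg],
        by rw [AlgEquiv.mul_apply, b3, h2], a3, b3⟩

variable {g12 g13 g23 : ℤ}

/-- B12. There are such fields. -/
theorem exists_Dat (hA : Arith g12 g13 g23) : ∃ (K : Type) (_ : Field K) (_ : NumberField K)
    (_ : IsGalois ℚ K), Nonempty (Dat K g12 g13 g23) := by
  obtain ⟨p12, p13, p23, hsq, ⟨q1, hq1, -, hd1⟩, ⟨q2, hq2, -, hd2⟩, ⟨q3, hq3, -, hd3⟩⟩ := hA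
  have sq1 : Squarefree (g12 * g13) := hsq.squarefree_of_dvd (Dvd.intro g23 rfl)
  have sq2 : Squarefree (g12 * g23) := hsq.squarefree_of_dvd (Dvd.intro g13 (by ring))
  have sq3 : Squarefree (g13 * g23) := hsq.squarefree_of_dvd (Dvd.intro_left g12 (by ring))
  set a : ℚ := ((g12 * g13 : ℤ) : ℚ) with ha
  set b : ℚ := ((g12 * g23 : ℤ) : ℚ) with hb
  have ha0 : 0 ≤ a := by rw [ha]; exact_mod_cast (mul_pos p12 p13).le
  have hb0 : 0 ≤ b := by rw [hb]; exact_mod_cast (mul_pos p12 p23).le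
  have hg0 : (g12 : ℚ) ≠ 0 := by exact_mod_cast p12.ne'
  have na : ¬ IsSquare a := not_isSquare_of sq1 hq1 hd1
  have nb : ¬ IsSquare b := not_isSquare_of sq2 hq2 hd2
  have nab : ¬ IsSquare (a * b) := by
    rintro ⟨r, hr⟩
    apply not_isSquare_of sq3 hq3 hd3
    refine ⟨r / g12, ?_⟩
    rw [div_mul_div_comm, ← hr, ha, hb]
    push_cast
    field_simp
  have : IsSplittingField ℚ (LL a b) (pol a b) := isSplittingField ha0 hb0
  have : Normal ℚ (LL a b) := Normal.of_isSplittingField (pol a b)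
  have : FiniteDimensional ℚ (LL a b) :=
    Polynomial.IsSplittingField.finiteDimensional (LL a b) (pol a b)
  have : NumberField (LL a b) := {}
  have : IsGalois ℚ (LL a b) := {}
  refine ⟨LL a b, inferInstance, inferInstance, inferInstance, ?_⟩
  set s1 := ra ha0 b with hs1
  set s2 := rb a hb0 with hs2
  have q1 : s1 ^ 2 = (a : LL a b) := ra_sq ha0 b
  have q2 : s2 ^ 2 = (b : LL a b) := rb_sq a hb0
  obtain ⟨σ, τ, σ1, σ2, τ1, τ2⟩ := exists_auts q1 q2 na nb nab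
  have hgK : (g12 : LL a b) ≠ 0 := by exact_mod_cast p12.ne'
  have q1' : s1 ^ 2 = ((g12 * g13 : ℤ) : LL a b) := by rw [q1, ha]; push_cast; ring
  have q2' : s2 ^ 2 = ((g12 * g23 : ℤ) : LL a b) := by rw [q2, hb]; push_cast; ring
  have q1z : s1 ^ 2 = (g12 : LL a b) * g13 := by rw [q1']; push_cast; ring
  have q2z : s2 ^ 2 = (g12 : LL a b) * g23 := by rw [q2']; push_cast; ring
  have hs10 : s1 ≠ 0 := by
    intro h
    rw [h] at q1z
    have : (g13 : LL a b) ≠ 0 := by exact_mod_cast p13.ne'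
    exact mul_ne_zero hgK this (by rw [← q1z]; ring)
  have hs20 : s2 ≠ 0 := by
    intro h
    rw [h] at q2z
    have : (g23 : LL a b) ≠ 0 := by exact_mod_cast p23.ne'
    exact mul_ne_zero hgK this (by rw [← q2z]; ring)
  have two : ∀ x : LL a b, x ≠ 0 → x ≠ -x := by
    intro x hx h
    apply hx
    have : (2 : LL a b) * x = 0 := by linear_combination h
    exact (mul_eq_zero.1 this).resolve_left (by norm_num)
  have comm : τ * σ = σ * τ := aut_ext ha0 hb0
    (by rw [AlgEquiv.mul_apply, AlgEquiv.mul_apply, ← hs1, σ1, τ1, map_neg, σ1])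
    (by rw [AlgEquiv.mul_apply, AlgEquiv.mul_apply, ← hs2, σ2, τ2, map_neg, τ2, σ2])
  have ss : σ * σ = 1 := aut_ext ha0 hb0
    (by rw [AlgEquiv.mul_apply, ← hs1, σ1, σ1, AlgEquiv.one_apply])
    (by rw [AlgEquiv.mul_apply, ← hs2, σ2, map_neg, σ2, neg_neg, AlgEquiv.one_apply])
  have tt : τ * τ = 1 := aut_ext ha0 hb0
    (by rw [AlgEquiv.mul_apply, ← hs1, τ1, map_neg, τ1, neg_neg, AlgEquiv.one_apply])
    (by rw [AlgEquiv.mul_apply, ← hs2, τ2, τ2, AlgEquiv.one_apply])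
  have ρ1 : (σ * τ) s1 = -s1 := by rw [AlgEquiv.mul_apply, τ1, map_neg, σ1]
  have ρ2 : (σ * τ) s2 = -s2 := by rw [AlgEquiv.mul_apply, τ2, σ2]
  have mz : ∀ g : LL a b ≃ₐ[ℚ] LL a b, g (g12 : LL a b) = g12 := fun g => map_intCast g g12
  refine ⟨{
    σ := σ, τ := τ, ρ := σ * τ
    v4 := ?_
    s1 := s1, s2 := s2, s3 := s1 * s2 / g12
    q1 := q1', q2 := q2', q3 := ?_, e12 := ?_, e13 := ?_, e23 := ?_
    σ1 := σ1, σ2 := σ2
    σ3 := by rw [map_div₀, map_mul, σ1, σ2, mz]; ring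
    τ1 := τ1, τ2 := τ2
    τ3 := by rw [map_div₀, map_mul, τ1, τ2, mz]; ring
    ρ1 := ρ1, ρ2 := ρ2
    ρ3 := by rw [map_div₀, map_mul, ρ1, ρ2, mz]; ring
    real := ?_ }⟩
  · refine
      { s1 := fun h => two s2 hs20 (by rw [← σ2, h, AlgEquiv.one_apply])
        t1 := fun h => two s1 hs10 (by rw [← τ1, h, AlgEquiv.one_apply])
        r1 := fun h => two s1 hs10 (by rw [← ρ1, h, AlgEquiv.one_apply])
        ss := ss
        tt := tt
        rr := by rw [mul_assoc, ← mul_assoc τ, comm, mul_assoc, tt, mul_one, ss]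
        st := rfl
        ts := comm
        all := ?_ }
    intro g
    rcases aut_sign g q1 with h1 | h1 <;> rcases aut_sign g q2 with h2 | h2
    · exact Or.inl (aut_ext ha0 hb0 (by rw [← hs1, h1, AlgEquiv.one_apply])
        (by rw [← hs2, h2, AlgEquiv.one_apply]))
    · exact Or.inr (Or.inl (aut_ext ha0 hb0 (by rw [← hs1, h1, σ1]) (by rw [← hs2, h2, σ2])))
    · exact Or.inr (Or.inr (Or.inl (aut_ext ha0 hb0 (by rw [← hs1, h1, τ1])
        (by rw [← hs2, h2, τ2]))))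
    · exact Or.inr (Or.inr (Or.inr (aut_ext ha0 hb0 (by rw [← hs1, h1, ρ1])
        (by rw [← hs2, h2, ρ2]))))
  · rw [div_pow, mul_pow, q1z, q2z]
    push_cast
    field_simp
  · field_simp
  · field_simp
    rw [q1z]
  · field_simp
    rw [q2z]
  · refine ⟨(algebraMap ℝ ℂ).comp (LL a b).val.toRingHom, ?_⟩
    ext x
    simp

end Pool.Agent.Helper85.BQ
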